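import Mathlib

open Set Filter Topology Pointwise

namespace Pool.Agent.Results.MP_6a4cde_an.ThreeTame

section defs
variable {G X : Type} [Group G] [TopologicalSpace X]

/-- `J` is an independence set for `U` -/
def Indep (φ : G →* (X ≃ₜ X)) {n : ℕ} (U : Fin n → Set X) (J : Set G) : Prop :=
  ∀ I : Finset G, I.Nonempty → (I : Set G) ⊆ J → ∀ σ : G → Fin n, ∃ y, ∀ g ∈ I, φ g y ∈ U (σ g)

/-- IT-tuples -/
def IT (φ : G →* (X ≃ₜ X)) {n : ℕ} (x : Fin n → X) : Prop :=
  ∀ U : Fin n → Set X, (∀ i, U i ∈ 𝓝 (x i)) → ∃ J : Set G, J.Infinite ∧ Indep φ U J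

/-- `n`-tameness -/
def Tame (n : ℕ) (φ : G →* (X ≃ₜ X)) : Prop :=
  ∀ x : Fin n → X, IT φ x → ¬ Function.Injective x

end defs

lemma seq (G : Type) [Group G] [Infinite G] :
    ∃ a : ℕ → G, ∀ n i j k, i < n → j < n → k < n → a n ≠ a i * (a j)⁻¹ * a k := by
  classical
  choose nxt h using fun s : Finset G => Infinite.exists_notMem_finset (s * s⁻¹ * s)
  let S : ℕ → Finset G := fun n => Nat.rec ∅ (fun _ s => insert (nxt s) s) n
  have hS : ∀ n i, i < n → nxt (S i) ∈ S n := by
    intro n i hi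
    induction n, hi using Nat.le_induction with
    | base => exact Finset.mem_insert_self _ _
    | succ n _ ih => exact Finset.mem_insert_of_mem ih
  exact ⟨fun n => nxt (S n), fun n i j k hi hj hk e => h (S n) (Eq.subst (motive := (· ∈ _)) e.symm (Finset.mul_mem_mul
    (Finset.mul_mem_mul (hS n i hi) (Finset.inv_mem_inv (hS n j hj))) (hS n k hk)))⟩

lemma three {G : Type} (a : ℕ → G) (f : G → G) (hf : Function.Injective f) (h0 : ∀ x, f x ≠ x)
    (h1 : ∀ p q p' q', f (a p) = a q → f (a p') = a q' → p < q → p' < q → q' < q → False)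
    (h2 : ∀ p q p' q', f (a p) = a q → f (a p') = a q' → q < p → p' < p → q' < p → False)
    {x y z : G} (hx : x ∈ range a) (hy : y ∈ range a) (hz : z ∈ range a) (fx : f x ∈ range a)
    (fy : f y ∈ range a) (fz : f z ∈ range a) : x = y ∨ x = z ∨ y = z := by
  have key : ∀ p q p' q', a q = f (a p) → a q' = f (a p') → max p q ≤ max p' q' ∧ p ≠ q ∧
      (a p ≠ a p' → p ≠ p' ∧ q ≠ q') := by
    intro p q p' q' e e'
    have n : p ≠ q := fun h => h0 (a p) (by rw [← e, h])
    refine ⟨?_, n, fun h => ⟨fun k => h (by rw [k]), fun k => h (hf (by rw [← e, ← e', k]))⟩⟩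
    by_contra hc
    rcases lt_or_gt_of_ne n with h | h
    · exact h1 p q p' q' e.symm e'.symm h (by omega) (by omega)
    · exact h2 p q p' q' e.symm e'.symm h (by omega) (by omega)
  obtain ⟨⟨p1, rfl⟩, ⟨p2, rfl⟩, ⟨p3, rfl⟩⟩ := And.intro hx (And.intro hy hz)
  obtain ⟨⟨q1, e1⟩, ⟨q2, e2⟩, ⟨q3, e3⟩⟩ := And.intro fx (And.intro fy fz)
  by_contra hc
  push Not at hc
  have a1 := key _ _ _ _ e1 e2
  have a2 := key _ _ _ _ e2 e3
  have a3 := key _ _ _ _ e3 e1
  have := a1.2.2 hc.1
  have := a2.2.2 hc.2.2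
  have := a3.2.2 hc.2.1.symm
  omega

theorem result (G : Type) [Group G] [Countable G] [Infinite G] :
    ∃ (X : Type) (_ : MetricSpace X) (_ : CompactSpace X) (φ : G →* (X ≃ₜ X)),
      Tame 3 φ ∧ ¬ Tame 2 φ := by
  classical
  obtain ⟨a, ha⟩ := seq G
  have L : ∀ t, t ≠ 1 → ∀ {x y z : G}, x ∈ range a → y ∈ range a → z ∈ range a → t * x ∈ range a →
      t * y ∈ range a → t * z ∈ range a → x = y ∨ x = z ∨ y = z := fun t ht =>
    three a (t * ·) (mul_right_injective t) (fun x h => ht (by simpa using h))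
      (fun p q p' q' e e' h1 h2 h3 => ha q q' p' p h3 h2 h1 (by rw [← e, ← e']; group))
      (fun p q p' q' e e' h1 h2 h3 => ha p p' q' q h2 h3 h1 (by rw [← e, ← e']; group))
  have R : ∀ t, t ≠ 1 → ∀ {x y z : G}, x ∈ range a → y ∈ range a → z ∈ range a → x * t ∈ range a →
      y * t ∈ range a → z * t ∈ range a → x = y ∨ x = z ∨ y = z := fun t ht =>
    three a (· * t) (mul_left_injective t) (fun x h => ht (by simpa using h))
      (fun p q p' q' e e' h1 h2 h3 => ha q p p' q' h1 h2 h3 (by rw [← e, ← e']; group))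
      (fun p q p' q' e e' h1 h2 h3 => ha p q q' p' h1 h3 h2 (by rw [← e, ← e']; group))
  have ainj : Function.Injective a := fun i j e => by
    by_contra h
    rcases lt_or_gt_of_ne h with h | h
    · exact ha j i i i h h h (by rw [e]; group)
    · exact ha i j j j h h h (by rw [e]; group)
  let X0 : Set (G → Bool) := {x | ∃ t, ∀ k, x k = true → t * k ∈ range a}
  let X := closure X0
  have act : ∀ g : G, MapsTo (fun (x : G → Bool) k => x (g⁻¹ * k)) X X := fun g =>
    MapsTo.closure (fun x ⟨t, h⟩ => ⟨t * g⁻¹, fun k hk => by rw [mul_assoc]; exact h _ hk⟩)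
      (by fun_prop)
  have hc : ∀ g : G, Continuous fun x : X => (⟨fun k => x.1 (g⁻¹ * k), act g x.2⟩ : X) := fun g =>
    Continuous.subtype_mk (f := fun (x : X) k => x.1 (g⁻¹ * k)) (continuous_pi fun k =>
      (continuous_apply (g⁻¹ * k)).comp (continuous_subtype_val (p := (· ∈ X)))) _
  let ψ : G → X ≃ₜ X := fun g =>
    { toFun := fun x => ⟨fun k => x.1 (g⁻¹ * k), act g x.2⟩
      invFun := fun x => ⟨fun k => x.1 (g⁻¹⁻¹ * k), act g⁻¹ x.2⟩
      left_inv := fun x => by ext k; simp
      right_inv := fun x => by ext k; simp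
      continuous_toFun := hc g
      continuous_invFun := hc g⁻¹ }
  let φ : G →* (X ≃ₜ X) := MonoidHom.mk' ψ fun g h => by ext x k; simp [ψ, mul_assoc]
  have hφ : ∀ g (x : X) k, (φ g x).1 k = x.1 (g⁻¹ * k) := fun _ _ _ => rfl
  have nb : ∀ (x : X) g, {y : X | y.1 g = x.1 g} ∈ 𝓝 x := fun x g =>
    (isOpen_discrete {x.1 g}).preimage (f := fun y : X => y.1 g)
      ((continuous_apply g).comp continuous_subtype_val) |>.mem_nhds rfl
  refine ⟨X, TopologicalSpace.metrizableSpaceMetric X, isCompact_iff_compactSpace.1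
    isClosed_closure.isCompact, φ, fun x hx inj => ?_, fun h => ?_⟩
  · obtain ⟨i, j, g, h, hij, hgh, hg, hh⟩ : ∃ i j g h, i ≠ j ∧ g ≠ h ∧ (x i).1 g = true ∧
        (x j).1 h = true := by
      have two : ∀ i j, i ≠ j → (∃ g, (x i).1 g = true) → (∃ g, (x j).1 g = true) →
          ∃ i j g h, i ≠ j ∧ g ≠ h ∧ (x i).1 g = true ∧ (x j).1 h = true := by
        rintro i j hij ⟨g, hg⟩ ⟨h, hh⟩
        by_contra hc
        push Not at hc
        have hc' : ∀ g h, (x i).1 g = true → (x j).1 h = true → g = h := fun g h a b =>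
          by_contra fun n => hc i j g h hij n a b
        refine hij (inj (Subtype.ext (funext fun k => Bool.eq_iff_iff.2 ⟨fun e => ?_, fun e => ?_⟩)))
        · rwa [hc' k h e hh]
        · rwa [← hc' g k hg e]
      have z : ∀ i j, i ≠ j → (∃ g, (x i).1 g = true) ∨ ∃ g, (x j).1 g = true := by
        intro i j hij
        by_contra hc
        push Not at hc
        exact hij (inj (Subtype.ext (funext fun k => by simp [hc.1 k, hc.2 k])))
      rcases z 0 1 (by decide) with h | h
      · rcases z 1 2 (by decide) with h' | h'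
        exacts [two 0 1 (by decide) h h', two 0 2 (by decide) h h']
      · rcases z 0 2 (by decide) with h' | h'
        exacts [two 0 1 (by decide) h' h, two 1 2 (by decide) h h']
    let c : Fin 3 → G := fun l => if l = i then g else h
    obtain ⟨J, hJ, hI⟩ := hx (fun l => {y | y.1 (c l) = (x l).1 (c l)}) fun l => nb _ _
    let e := hJ.natEmbedding
    have key : ∀ σ : G → Fin 3, (∀ k, σ k = i ∨ σ k = j) → ∃ t, ∀ m < 6,
        t * ((e m : G)⁻¹ * c (σ (e m))) ∈ range a := by
      intro σ hσ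
      obtain ⟨y, hy⟩ := hI ((Finset.range 6).image fun m => (e m : G)) (by simp)
        (fun k hk => by simp at hk; obtain ⟨m, -, rfl⟩ := hk; exact (e m).2) σ
      have o : IsOpen (⋂ m ∈ Finset.range 6, {w : G → Bool | w ((e m : G)⁻¹ * c (σ (e m))) = true}) :=
        isOpen_biInter_finset fun m _ => (isOpen_discrete {true}).preimage
          (continuous_apply (A := fun _ : G => Bool) ((e m : G)⁻¹ * c (σ (e m))))
      obtain ⟨w, w1, t, w2⟩ := mem_closure_iff.1 y.2 _ o (mem_iInter₂.2 fun m hm => by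
        have := hy _ (Finset.mem_image_of_mem _ hm)
        simp only [mem_ofPred_eq, hφ] at this ⊢
        rw [this]
        rcases hσ (e m) with b | b <;> simp [b, c, hij.symm, hg, hh])
      exact ⟨t, fun m hm => w2 _ (mem_iInter₂.1 w1 m (Finset.mem_range.2 hm))⟩
    have ei : ∀ m n, (e m : G) = e n ↔ m = n := fun m n => Subtype.val_inj.trans e.injective.eq_iff
    obtain ⟨t, ht⟩ := key (fun _ => i) fun _ => Or.inl rfl
    obtain ⟨s, hs⟩ := key (fun k => if k = e 0 ∨ k = e 1 ∨ k = e 2 then i else j) fun k => by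
      split_ifs <;> simp
    simp only [ei, c, if_true] at ht hs
    have st : s * t⁻¹ = 1 := by
      by_contra n
      have := L _ n (ht 0 (by norm_num)) (ht 1 (by norm_num)) (ht 2 (by norm_num))
        (by simpa [mul_assoc] using hs 0 (by norm_num)) (by simpa [mul_assoc] using hs 1 (by norm_num))
        (by simpa [mul_assoc] using hs 2 (by norm_num))
      simp [ei] at this
    rw [mul_inv_eq_one] at st
    subst st
    have := R (g⁻¹ * h) (by simpa [inv_mul_eq_one] using hgh) (ht 3 (by norm_num))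
      (ht 4 (by norm_num)) (ht 5 (by norm_num))
      (by simpa [mul_assoc, hij.symm] using hs 3 (by norm_num))
      (by simpa [mul_assoc, hij.symm] using hs 4 (by norm_num))
      (by simpa [mul_assoc, hij.symm] using hs 5 (by norm_num))
    simp [ei] at this
  · let x : Fin 2 → X := fun i => ⟨fun k => decide (i = 1 ∧ k = 1), subset_closure
      ⟨a 0, fun k hk => by simp at hk; simp [hk.2]⟩⟩
    refine h x (fun U hU => ?_) fun i j e => by
      have := congrFun (congrArg Subtype.val e) 1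
      revert this; fin_cases i <;> fin_cases j <;> simp [x]
    have hF : ∀ i, ∃ F : Finset G, ∀ y : X, (∀ k ∈ F, y.1 k = (x i).1 k) → y ∈ U i := by
      intro i
      obtain ⟨V, hV, h⟩ := (mem_nhds_subtype _ _ _).1 (hU i)
      rw [nhds_pi, Filter.mem_pi'] at hV
      obtain ⟨F, t, h1, h2⟩ := hV
      exact ⟨F, fun y hy => h (h2 fun k hk => hy k hk ▸ mem_of_mem_nhds (h1 k))⟩
    choose F hF using hF
    have fin : ∀ s, {z | s ≠ 1 ∧ z ∈ range a ∧ z * s ∈ range a}.Finite := by
      intro s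
      by_contra hc
      let e := Set.Infinite.natEmbedding _ hc
      have := R s (e 0).2.1 (e 0).2.2.1 (e 1).2.2.1 (e 2).2.2.1 (e 0).2.2.2 (e 1).2.2.2 (e 2).2.2.2
      simp [Subtype.val_inj] at this
    let J := range a \ ⋃ s ∈ F 0 ∪ F 1, {z | s ≠ 1 ∧ z ∈ range a ∧ z * s ∈ range a}
    have hJ : J.Infinite := (infinite_range_of_injective ainj).sdiff
      ((F 0 ∪ F 1).finite_toSet.biUnion fun s _ => fin s)
    refine ⟨J⁻¹, by simpa using hJ, fun I _ hI σ => ⟨⟨fun k => decide (k ∈ J ∧ σ k⁻¹ = 1),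
      subset_closure ⟨1, fun k hk => by simp at hk; simpa using hk.1.1⟩⟩, fun g hg => ?_⟩⟩
    have h1 : g⁻¹ ∈ J := hI hg
    refine hF _ _ fun k hk => ?_
    rw [hφ]
    by_cases e : k = 1
    · simp [x, e, h1]
    · have : g⁻¹ * k ∉ J := fun n => h1.2 (mem_iUnion₂.2 ⟨k, by
        generalize σ g = i at hk; fin_cases i <;> simp_all, e, h1.1, n.1⟩)
      simp [x, e, this]

end Pool.Agent.Results.MP_6a4cde_an.ThreeTame
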